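import Mathlib

set_option autoImplicit false

namespace Pool.Agent.Results.MP_59918e_co.NotWeaklyCIS

/-- The 14 vertices are the edges of a triangle-free graph on 9 points (bit masks of the two
ends); two of them are adjacent when they are disjoint. -/
def MASK : List ℕ :=
  [20, 24, 34, 40, 65, 68, 96, 129, 130, 144, 257, 258, 260, 264]

def WT : List ℕ :=
  [5342, 9558, 7366, 7734, 3124, 11976, 4900, 5016, 9884, 5100, 11860, 2750, 2682, 2708]

def mask (v : Fin 14) : ℕ := MASK.getD v.val 0
def wt (v : Fin 14) : ℕ := WT.getD v.val 0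

def adj (u v : Fin 14) : Bool := u != v && (mask u &&& mask v == 0)

def G : SimpleGraph (Fin 14) where
  Adj u v := adj u v = true
  symm := ⟨fun u v h => by
    simp only [adj, Bool.and_eq_true, bne_iff_ne, ne_eq, beq_iff_eq] at h ⊢
    exact ⟨fun e => h.1 e.symm, by rw [Nat.and_comm]; exact h.2⟩⟩
  loopless := ⟨fun u h => by simp [adj] at h⟩

theorem max_iff (H : SimpleGraph (Fin 14)) (S : Finset (Fin 14)) :
    Maximal (fun s : Finset (Fin 14) => H.IsIndepSet (s : Set (Fin 14))) S ↔
      (∀ u ∈ S, ∀ v ∈ S, ¬ H.Adj u v) ∧ ∀ v, v ∉ S → ∃ u ∈ S, H.Adj v u := by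
  have ind : ∀ T : Finset (Fin 14), H.IsIndepSet (T : Set (Fin 14)) ↔
      ∀ u ∈ T, ∀ v ∈ T, ¬ H.Adj u v := by
    intro T
    constructor
    · intro h u hu v hv ha
      exact h hu hv ha.ne ha
    · intro h u hu v hv _
      exact h u hu v hv
  constructor
  · rintro ⟨h1, h2⟩
    have h1' := (ind S).1 h1
    refine ⟨h1', fun v hv => ?_⟩
    by_contra hn
    have hn' : ∀ u ∈ S, ¬ H.Adj v u := fun u hu ha => hn ⟨u, hu, ha⟩
    have := h2 (y := insert v S) ((ind _).2 (by
      intro a ha b hb
      rw [Finset.mem_insert] at ha hb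
      rcases ha with rfl | ha <;> rcases hb with rfl | hb
      · exact H.irrefl
      · exact hn' b hb
      · exact fun h => hn' a ha h.symm
      · exact h1' a ha b hb)) (Finset.subset_insert v S)
    exact hv (this (Finset.mem_insert_self v S))
  · rintro ⟨h1, h2⟩
    refine ⟨(ind S).2 h1, fun T hT hST v hv => ?_⟩
    by_contra hn
    obtain ⟨u, hu, ha⟩ := h2 v hn
    exact (ind T).1 hT v hv u (hST hu) ha

def good (L : List (Fin 14)) : Bool :=
  (L.all fun u => L.all fun v => !adj u v) &&
    (List.finRange 14).all fun v => L.contains v || L.any fun u => adj v u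

theorem good_iff (L : List (Fin 14)) : good L = true ↔
    Maximal (fun s : Finset (Fin 14) => G.IsIndepSet (s : Set (Fin 14))) L.toFinset := by
  rw [max_iff]
  simp only [good, Bool.and_eq_true, List.all_eq_true, Bool.not_eq_true', List.mem_finRange,
    forall_true_left, Bool.or_eq_true, List.contains_iff_mem, List.any_eq_true,
    List.mem_toFinset, G, Bool.not_eq_true]
  constructor
  · rintro ⟨h1, h2⟩
    exact ⟨h1, fun v hv => (h2 v).resolve_left hv⟩
  · rintro ⟨h1, h2⟩
    refine ⟨h1, fun v => ?_⟩
    by_cases hv : v ∈ L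
    · exact Or.inl hv
    · exact Or.inr (h2 v hv)

def go : List (Fin 14) → ℕ → List (Fin 14) → Bool
  | [], r, acc => r != 0 || good acc
  | v :: l, r, acc =>
    if r < 2682 then r != 0 || good acc
    else go l r acc && (decide (r < wt v) || go l (r - wt v) (v :: acc))

theorem wt_min : ∀ v, 2682 ≤ wt v := by decide +kernel

theorem go_spec : ∀ (l : List (Fin 14)) (r : ℕ) (acc : List (Fin 14)), l.Nodup →
    go l r acc = true → ∀ S : Finset (Fin 14), (∀ v ∈ S, v ∈ l) → ∑ v ∈ S, wt v = r →
    Maximal (fun s : Finset (Fin 14) => G.IsIndepSet (s : Set (Fin 14))) (acc.toFinset ∪ S) := by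
  intro l
  induction l with
  | nil =>
    intro r acc _ h S hS hr
    have : S = ∅ := Finset.eq_empty_of_forall_notMem fun v hv => by simpa using hS v hv
    subst this
    rw [Finset.sum_empty] at hr
    subst hr
    rw [Finset.union_empty, ← good_iff]
    simpa [go] using h
  | cons v l ih =>
    intro r acc hnd h S hS hr
    rw [List.nodup_cons] at hnd
    unfold go at h
    split_ifs at h with hlt
    · have : S = ∅ := by
        refine Finset.eq_empty_of_forall_notMem fun u hu => ?_
        have h1 := Finset.single_le_sum (f := wt) (fun _ _ => Nat.zero_le _) hu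
        have h2 := wt_min u
        omega
      subst this
      rw [Finset.sum_empty] at hr
      subst hr
      rw [Finset.union_empty, ← good_iff]
      simpa using h
    · rw [Bool.and_eq_true, Bool.or_eq_true, decide_eq_true_eq] at h
      by_cases hv : v ∈ S
      · have hs := Finset.add_sum_erase S wt hv
        have h2 : go l (r - wt v) (v :: acc) = true := h.2.resolve_left (by omega)
        have := ih _ _ hnd.2 h2 (S.erase v) (fun u hu => by
          rw [Finset.mem_erase] at hu
          exact (List.mem_cons.1 (hS u hu.2)).resolve_left hu.1) (by omega)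
        have e : (v :: acc).toFinset ∪ S.erase v = acc.toFinset ∪ S := by
          ext u
          simp only [List.toFinset_cons, Finset.mem_union, Finset.mem_insert, List.mem_toFinset,
            Finset.mem_erase]
          by_cases hu : u = v
          · subst hu
            simp [hv]
          · simp [hu]
        rwa [e] at this
      · refine ih _ _ hnd.2 h.1 S (fun u hu => ?_) hr
        exact (List.mem_cons.1 (hS u hu)).resolve_left fun e => hv (e ▸ hu)

theorem go_run : go (List.finRange 14) 20000 [] = true := by decide +kernel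

def go2 : List (Fin 14) → List (Fin 14) → Bool
  | [], acc => !good acc || (acc.map wt).sum == 20000
  | v :: l, acc => go2 l acc && ((acc.any fun u => adj v u) || go2 l (v :: acc))

theorem go2_spec : ∀ (l acc : List (Fin 14)), (l ++ acc).Nodup → go2 l acc = true →
    ∀ S : Finset (Fin 14), (∀ v ∈ S, v ∈ l) →
    Maximal (fun s : Finset (Fin 14) => G.IsIndepSet (s : Set (Fin 14))) (acc.toFinset ∪ S) →
    ∑ v ∈ acc.toFinset ∪ S, wt v = 20000 := by
  intro l
  induction l with
  | nil =>
    intro acc hnd h S hS hm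
    have : S = ∅ := Finset.eq_empty_of_forall_notMem fun v hv => by simpa using hS v hv
    subst this
    rw [Finset.union_empty] at hm ⊢
    rw [← good_iff] at hm
    rw [List.sum_toFinset _ (by simpa using hnd)]
    simpa [go2, hm] using h
  | cons v l ih =>
    intro acc hnd h S hS hm
    unfold go2 at h
    rw [Bool.and_eq_true, Bool.or_eq_true] at h
    have hnd2 : (l ++ v :: acc).Nodup := List.nodup_middle.2 hnd
    have hnd3 : (l ++ acc).Nodup := (List.nodup_cons.1 hnd).2
    by_cases hv : v ∈ S
    · have e : (v :: acc).toFinset ∪ S.erase v = acc.toFinset ∪ S := by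
        ext u
        simp only [List.toFinset_cons, Finset.mem_union, Finset.mem_insert, List.mem_toFinset,
          Finset.mem_erase]
        by_cases hu : u = v
        · subst hu
          simp [hv]
        · simp [hu]
      have h2 : go2 l (v :: acc) = true := by
        refine h.2.resolve_left fun h3 => ?_
        rw [List.any_eq_true] at h3
        obtain ⟨u, hu, ha⟩ := h3
        exact ((max_iff G _).1 hm).1 v (Finset.mem_union_right _ hv) u
          (Finset.mem_union_left _ (List.mem_toFinset.2 hu)) ha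
      have := ih _ hnd2 h2 (S.erase v) (fun u hu => by
          rw [Finset.mem_erase] at hu
          exact (List.mem_cons.1 (hS u hu.2)).resolve_left hu.1) (by rw [e]; exact hm)
      rwa [e] at this
    · refine ih _ hnd3 h.1 S (fun u hu => ?_) hm
      exact (List.mem_cons.1 (hS u hu)).resolve_left fun e => hv (e ▸ hu)

theorem go2_run : go2 (List.finRange 14) [] = true := by decide +kernel

theorem of_nat (H : SimpleGraph (Fin 14)) (a : Fin 14 → ℕ) (N : ℕ) (hN : 0 < N)
    (ha : ∀ v, 0 < a v)
    (h : ∀ S : Finset (Fin 14),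
      (Maximal (fun s : Finset (Fin 14) => H.IsIndepSet (s : Set (Fin 14))) S ↔
        ∑ v ∈ S, a v = N)) :
    ∃ φ : Fin 14 → ℝ, (∀ v, 0 < φ v) ∧ ∀ S : Finset (Fin 14),
      (Maximal (fun s : Finset (Fin 14) => H.IsIndepSet (s : Set (Fin 14))) S ↔
        ∑ v ∈ S, φ v = 1) := by
  have hN' : (0 : ℝ) < N := by exact_mod_cast hN
  refine ⟨fun v => (a v : ℝ) / N, fun v => div_pos (by exact_mod_cast ha v) hN', fun S => ?_⟩
  rw [h S, ← Finset.sum_div, div_eq_one_iff_eq hN'.ne', ← Nat.cast_sum, Nat.cast_inj]

theorem equiG : ∃ φ : Fin 14 → ℝ, (∀ v, 0 < φ v) ∧ ∀ S : Finset (Fin 14),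
      (Maximal (fun s : Finset (Fin 14) => G.IsIndepSet (s : Set (Fin 14))) S ↔
        ∑ v ∈ S, φ v = 1) := by
  refine of_nat G wt 20000 (by norm_num) (fun v => lt_of_lt_of_le (by norm_num) (wt_min v))
    fun S => ⟨fun h => ?_, fun h => ?_⟩
  · have := go2_spec _ [] (by simpa using List.nodup_finRange 14) go2_run S
      (fun v _ => List.mem_finRange v) (by simpa using h)
    simpa using this
  · have := go_spec _ _ [] (List.nodup_finRange 14) go_run S (fun v _ => List.mem_finRange v) h
    simpa using this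


def star : Fin 9 → List (Fin 14) :=
  ![[4, 7, 10], [2, 8, 11], [0, 5, 12], [1, 3, 13], [0, 1, 9],
    [2, 3, 6], [4, 5, 6], [7, 8, 9], [10, 11, 12, 13]]

def s1 : Fin 9 → Fin 14 := ![4, 2, 0, 1, 0, 2, 4, 7, 10]
def s2 : Fin 9 → Fin 14 := ![7, 8, 5, 3, 1, 3, 5, 8, 11]

theorem s_ne : ∀ i, s1 i ≠ s2 i ∧ adj (s1 i) (s2 i) = false := by decide +kernel

theorem s_star : ∀ i v, adj v (s1 i) = false → adj v (s2 i) = false → v ∈ star i := by
  decide +kernel

def cp (u v : Fin 14) : Bool := u == v || adj u v

theorem noMatch : ((star 0).all fun a =>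
    (star 1).all fun b => !(cp a b) ||
    (star 2).all fun c => !(cp a c && cp b c) ||
    (star 3).all fun d => !(cp a d && cp b d && cp c d) ||
    (star 4).all fun e => !(cp a e && cp b e && cp c e && cp d e) ||
    (star 5).all fun f => !(cp a f && cp b f && cp c f && cp d f && cp e f) ||
    (star 6).all fun g => !(cp a g && cp b g && cp c g && cp d g && cp e g && cp f g) ||
    (star 7).all fun h => !(cp a h && cp b h && cp c h && cp d h && cp e h && cp f h && cp g h) ||
    (star 8).all fun i => !(cp a i && cp b i && cp c i && cp d i && cp e i && cp f i && cp g i && cp h i)) = true := by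
  decide +kernel

theorem notW : ¬ ∃ C S : Set (Finset (Fin 14)),
        (∀ K ∈ C, Maximal (fun s : Finset (Fin 14) => G.IsClique (s : Set (Fin 14))) K) ∧
        (∀ T ∈ S, Maximal (fun s : Finset (Fin 14) => G.IsIndepSet (s : Set (Fin 14))) T) ∧
        (∀ u v, G.Adj u v → ∃ K ∈ C, u ∈ K ∧ v ∈ K) ∧
        (∀ u v, u ≠ v → ¬ G.Adj u v → ∃ T ∈ S, u ∈ T ∧ v ∈ T) ∧
        (∀ K ∈ C, ∀ T ∈ S, ∃ v, v ∈ K ∧ v ∈ T) := by
  rintro ⟨C, S, h1, h2, h3, h4, h5⟩
  obtain ⟨K, hK, -⟩ := h3 0 2 (by show adj 0 2 = true; decide +kernel)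
  have hex : ∀ i, ∃ v ∈ star i, v ∈ K := by
    intro i
    obtain ⟨T, hT, a1, a2⟩ := h4 (s1 i) (s2 i) (s_ne i).1 (by
      show ¬ adj _ _ = true
      rw [(s_ne i).2]
      decide)
    obtain ⟨v, hv, hvT⟩ := h5 K hK T hT
    have hI := ((max_iff G T).1 (h2 T hT)).1
    exact ⟨v, s_star i v (Bool.eq_false_iff.2 (hI v hvT _ a1))
      (Bool.eq_false_iff.2 (hI v hvT _ a2)), hv⟩
  choose e he hx using hex
  have hc : ∀ i j, cp (e i) (e j) = true := by
    intro i j
    unfold cp
    rw [Bool.or_eq_true, beq_iff_eq]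
    by_cases h : e i = e j
    · exact Or.inl h
    · exact Or.inr ((h1 K hK).1 (hx i) (hx j) h)
  have h := noMatch
  rw [List.all_eq_true] at h
  have h := h _ (he 0)
  rw [List.all_eq_true] at h
  have h := h _ (he 1)
  simp only [hc, Bool.and_self, Bool.not_true, Bool.false_or] at h
  rw [List.all_eq_true] at h
  have h := h _ (he 2)
  simp only [hc, Bool.and_self, Bool.not_true, Bool.false_or] at h
  rw [List.all_eq_true] at h
  have h := h _ (he 3)
  simp only [hc, Bool.and_self, Bool.not_true, Bool.false_or] at h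
  rw [List.all_eq_true] at h
  have h := h _ (he 4)
  simp only [hc, Bool.and_self, Bool.not_true, Bool.false_or] at h
  rw [List.all_eq_true] at h
  have h := h _ (he 5)
  simp only [hc, Bool.and_self, Bool.not_true, Bool.false_or] at h
  rw [List.all_eq_true] at h
  have h := h _ (he 6)
  simp only [hc, Bool.and_self, Bool.not_true, Bool.false_or] at h
  rw [List.all_eq_true] at h
  have h := h _ (he 7)
  simp only [hc, Bool.and_self, Bool.not_true, Bool.false_or] at h
  rw [List.all_eq_true] at h
  have h := h _ (he 8)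
  simp only [hc, Bool.and_self, Bool.not_true] at h
  exact absurd h (by decide)

/-- Not every equistable graph is weakly CIS. -/
theorem result :
    ¬ (∀ (V : Type) [Fintype V] (G : SimpleGraph V),
      (∃ φ : V → ℝ, (∀ v, 0 ≤ φ v) ∧ ∀ S : Finset V,
        (Maximal (fun s : Finset V => G.IsIndepSet (s : Set V)) S ↔ ∑ v ∈ S, φ v = 1)) →
      ∃ C S : Set (Finset V),
        (∀ K ∈ C, Maximal (fun s : Finset V => G.IsClique (s : Set V)) K) ∧
        (∀ T ∈ S, Maximal (fun s : Finset V => G.IsIndepSet (s : Set V)) T) ∧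
        (∀ u v, G.Adj u v → ∃ K ∈ C, u ∈ K ∧ v ∈ K) ∧
        (∀ u v, u ≠ v → ¬ G.Adj u v → ∃ T ∈ S, u ∈ T ∧ v ∈ T) ∧
        (∀ K ∈ C, ∀ T ∈ S, ∃ v, v ∈ K ∧ v ∈ T)) := by
  intro h
  obtain ⟨φ, h1, h2⟩ := equiG
  exact notW (h (Fin 14) G ⟨φ, fun v => (h1 v).le, h2⟩)

end Pool.Agent.Results.MP_59918e_co.NotWeaklyCIS
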